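import Pool.Agent.Helper55.FR.GoalsB

/-!
# FR-GIR: a nonempty set of minimum inner degree two has at least girth many elements
-/

namespace Pool.Agent.Helper69.FR

open Pool.Agent.Helper55.FR SimpleGraph

theorem gir_cycle {W : Type} [Finite W] (H : SimpleGraph W) [Nonempty W]
    (hd : ∀ x : W, ∃ y z : W, y ≠ z ∧ H.Adj x y ∧ H.Adj x z) : ¬ H.IsAcyclic := by
  classical
  intro hac
  obtain ⟨u, v, p, hp, hmax⟩ := Walk.exists_isPath_forall_isPath_length_le_length H
  obtain ⟨y, z, hyz, hy, hz⟩ := hd u
  have key : ∀ w, H.Adj u w → w = p.snd := by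
    intro w hw
    have hs : w ∈ p.support := by
      by_contra hns
      have h1 : (Walk.cons hw.symm p).IsPath := hp.cons hns
      have h2 := hmax _ _ _ h1
      rw [Walk.length_cons] at h2
      omega
    exact hac.eq_snd_of_adj_start hp hw hs
  exact hyz ((key y hy).trans (key z hz).symm)

theorem gir : GirStmt := by
  intro V _ _ G _ g hg K hK hdeg
  classical
  let H : SimpleGraph (K : Set V) := G.induce (K : Set V)
  obtain ⟨x0, hx0⟩ := hK
  have : Nonempty (K : Set V) := ⟨⟨x0, hx0⟩⟩
  have hd : ∀ x : (K : Set V), ∃ y z : (K : Set V), y ≠ z ∧ H.Adj x y ∧ H.Adj x z := by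
    intro x
    have h1 := hdeg x.1 x.2
    obtain ⟨y, hy, z, hz, hne⟩ := Finset.one_lt_card.mp (show 1 < _ from h1)
    rw [Finset.mem_filter] at hy hz
    refine ⟨⟨y, hy.1⟩, ⟨z, hz.1⟩, ?_, ?_, ?_⟩
    · intro h; exact hne (congrArg Subtype.val h)
    · exact hy.2
    · exact hz.2
  have hnac := gir_cycle H hd
  have : ∃ (a : (K : Set V)) (c : H.Walk a a), c.IsCycle := by
    by_contra hcon
    push Not at hcon
    exact hnac (fun a c => hcon a c)
  obtain ⟨a, c, hc⟩ := this
  have hlen : c.length ≤ K.card := by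
    have h1 := hc.isPath_tail.length_lt
    have h2 : c.tail.length + 1 = c.length := Walk.length_tail_add_one hc.not_nil
    have h3 : Fintype.card (K : Set V) = K.card := by simp
    omega
  have hinj : Function.Injective (Embedding.induce (G := G) (K : Set V)).toHom :=
    (Embedding.induce (G := G) (K : Set V)).injective
  have hc2 : (c.map (Embedding.induce (G := G) (K : Set V)).toHom).IsCycle :=
    (Walk.isCycle_map_iff_of_injective hinj).mpr hc
  have h4 := le_egirth.mp hg _ _ hc2
  rw [Walk.length_map] at h4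
  have h5 : g ≤ c.length := by exact_mod_cast h4
  omega

end Pool.Agent.Helper69.FR
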